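import Mathlib

set_option autoImplicit false

namespace Pool.Agent.Results.MP_c1651f_co.SmallPowers

open Finset

section seq

variable {W : Type*} [AddCommGroup W] [DecidableEq W]

def D (x : ℕ → W) (l m : ℕ) : Finset W :=
  ((range m ×ˢ range m).filter (fun p => p.1 < p.2 ∧ p.2 ≤ p.1 + l)).image
    (fun p => x p.1 + x p.2)

def U (x : ℕ → W) : ℕ → Finset W
  | 0 => {0}
  | m + 1 => U x m ∪ (U x m).image (fun w => w + x m)

def T (l d : ℕ) : ℕ := ∑ k ∈ range d, min l (2 ^ k)

lemma mem_D {x : ℕ → W} {l m : ℕ} {w : W} :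
    w ∈ D x l m ↔ ∃ i j, i < j ∧ j < m ∧ j ≤ i + l ∧ x i + x j = w := by
  simp only [D, mem_image, mem_filter, mem_product, mem_range, Prod.exists]
  constructor
  · rintro ⟨i, j, ⟨⟨_, h2⟩, h3, h4⟩, h5⟩
    exact ⟨i, j, h3, h2, h4, h5⟩
  · rintro ⟨i, j, h1, h2, h3, h4⟩
    exact ⟨i, j, ⟨⟨by omega, h2⟩, h1, h3⟩, h4⟩

lemma D_mono {x : ℕ → W} {l m : ℕ} : D x l m ⊆ D x l (m + 1) := by
  intro w hw
  rw [mem_D] at hw ⊢
  obtain ⟨i, j, h1, h2, h3, h4⟩ := hw
  exact ⟨i, j, h1, by omega, h3, h4⟩

lemma mem_U_succ {x : ℕ → W} {m : ℕ} {w : W} :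
    w ∈ U x (m + 1) ↔ w ∈ U x m ∨ ∃ a ∈ U x m, a + x m = w := by
  rw [U, mem_union, mem_image]

lemma zero_mem_U (x : ℕ → W) (m : ℕ) : (0 : W) ∈ U x m := by
  induction m with
  | zero => simp [U]
  | succ m ih => exact mem_U_succ.2 (Or.inl ih)

lemma add_mem_U (hc : ∀ w : W, w + w = 0) (x : ℕ → W) (m : ℕ) :
    ∀ a ∈ U x m, ∀ b ∈ U x m, a + b ∈ U x m := by
  induction m with
  | zero => intro a ha b hb; simp [U] at ha hb ⊢; rw [ha, hb]; simp
  | succ m ih =>
    intro a ha b hb
    rw [mem_U_succ] at ha hb ⊢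
    rcases ha with ha | ⟨a', ha', rfl⟩ <;> rcases hb with hb | ⟨b', hb', rfl⟩
    · exact Or.inl (ih a ha b hb)
    · exact Or.inr ⟨a + b', ih a ha b' hb', by abel⟩
    · exact Or.inr ⟨a' + b, ih a' ha' b hb, by abel⟩
    · refine Or.inl ?_
      have : a' + x m + (b' + x m) = a' + b' + (x m + x m) := by abel
      rw [this, hc, add_zero]
      exact ih a' ha' b' hb'

lemma x_mem_U (x : ℕ → W) {i m : ℕ} (h : i < m) : x i ∈ U x m := by
  induction m with
  | zero => omega
  | succ m ih =>
    rw [mem_U_succ]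
    rcases Nat.lt_succ_iff_lt_or_eq.1 h with h | rfl
    · exact Or.inl (ih h)
    · exact Or.inr ⟨0, zero_mem_U x i, zero_add _⟩

lemma D_sub_U (hc : ∀ w : W, w + w = 0) (x : ℕ → W) (l m : ℕ) : D x l m ⊆ U x m := by
  intro w hw
  rw [mem_D] at hw
  obtain ⟨i, j, h1, h2, h3, rfl⟩ := hw
  exact add_mem_U hc x m _ (x_mem_U x (by omega)) _ (x_mem_U x h2)

lemma card_U_succ (x : ℕ → W) (m : ℕ) : (U x (m + 1)).card ≤ 2 * (U x m).card := by
  rw [U]
  refine (card_union_le _ _).trans ?_
  have := card_image_le (s := U x m) (f := fun w => w + x m)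
  omega

lemma U_succ_of_mem (hc : ∀ w : W, w + w = 0) (x : ℕ → W) (m : ℕ) (h : x m ∈ U x m) :
    U x (m + 1) = U x m := by
  ext w
  rw [mem_U_succ]
  constructor
  · rintro (h1 | ⟨a, ha, rfl⟩)
    · exact h1
    · exact add_mem_U hc x m a ha _ h
  · exact Or.inl

/-- the new differences of the vertex `m` -/
lemma card_new {x : ℕ → W} {n l m : ℕ} (hx : ∀ i < n, ∀ j < n, x i = x j → i = j) (hm : m < n)
    (S : Finset ℕ) (hS : ∀ p ∈ S, p < m ∧ m ≤ p + l) (hS' : ∀ p ∈ S, x p + x m ∉ D x l m) :
    (D x l m).card + S.card ≤ (D x l (m + 1)).card := by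
  have h1 : Disjoint (D x l m) (S.image (fun p => x p + x m)) := by
    rw [disjoint_left]
    intro w hw hw'
    rw [mem_image] at hw'
    obtain ⟨p, hp, rfl⟩ := hw'
    exact hS' p hp hw
  have h2 : (S.image (fun p => x p + x m)).card = S.card := by
    refine card_image_of_injOn ?_
    intro p hp q hq hpq
    have hp' := hS p hp
    have hq' := hS q hq
    exact hx p (by omega) q (by omega) (add_right_cancel hpq)
  have h3 : D x l m ∪ S.image (fun p => x p + x m) ⊆ D x l (m + 1) := by
    refine union_subset D_mono ?_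
    intro w hw
    rw [mem_image] at hw
    obtain ⟨p, hp, rfl⟩ := hw
    have hp' := hS p hp
    exact mem_D.2 ⟨p, m, hp'.1, by omega, hp'.2, rfl⟩
  have h4 := card_le_card h3
  rw [card_union_of_disjoint h1, h2] at h4
  exact h4

lemma jump (hc : ∀ w : W, w + w = 0) {x : ℕ → W} {n l m : ℕ}
    (hx : ∀ i < n, ∀ j < n, x i = x j → i = j) (hm : m < n) (h : x m ∉ U x m) :
    (D x l m).card + min l m ≤ (D x l (m + 1)).card := by
  have h1 := card_new (l := l) hx hm (Ico (m - l) m) (fun p hp => by rw [mem_Ico] at hp; omega)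
    (fun p hp hw => by
      rw [mem_Ico] at hp
      have h2 := add_mem_U hc x m _ (x_mem_U x hp.2) _ (D_sub_U hc x l m hw)
      rw [← add_assoc, hc, zero_add] at h2
      exact h h2)
  rw [Nat.card_Ico] at h1
  omega

/-- no nontrivial relation between `x 1, ..., x (m - 1)` -/
def Indep (x : ℕ → W) (m : ℕ) : Prop := ∀ I ⊆ Ico 1 m, ∑ i ∈ I, x i = 0 → I = ∅

omit [DecidableEq W] in
lemma sum_symmDiff (hc : ∀ w : W, w + w = 0) (x : ℕ → W) (P Q : Finset ℕ)
    (h : ∑ i ∈ P, x i = ∑ i ∈ Q, x i) : ∑ i ∈ symmDiff P Q, x i = 0 := by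
  have h1 : ∑ i ∈ P, x i = ∑ i ∈ P \ Q, x i + ∑ i ∈ P ∩ Q, x i := by
    rw [← sum_union (disjoint_sdiff_inter P Q), sdiff_union_inter]
  have h2 : ∑ i ∈ Q, x i = ∑ i ∈ Q \ P, x i + ∑ i ∈ P ∩ Q, x i := by
    rw [inter_comm, ← sum_union (disjoint_sdiff_inter Q P), sdiff_union_inter]
  have h3 : ∑ i ∈ P \ Q, x i = ∑ i ∈ Q \ P, x i := by
    rw [h1, h2] at h
    exact add_right_cancel h
  have h4 : symmDiff P Q = (P \ Q) ∪ (Q \ P) := rfl
  rw [h4, sum_union, h3, hc]
  exact disjoint_sdiff_sdiff

omit [DecidableEq W] in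
lemma unique_triple (hc : ∀ w : W, w + w = 0) {x : ℕ → W} {m : ℕ} (h0 : x 0 = 0)
    (hI : Indep x m) (P Q : Finset ℕ) (hP : P ⊆ range m) (hQ : Q ⊆ range m) (hP3 : P.card = 3)
    (hQ3 : Q.card = 3) (h : ∑ i ∈ P, x i = ∑ i ∈ Q, x i) : P = Q := by
  have h1 := sum_symmDiff hc x P Q h
  have h2 : ∑ i ∈ (symmDiff P Q).erase 0, x i = 0 := by
    rw [← h1]
    exact sum_erase _ h0
  have hsub : symmDiff P Q ⊆ range m := by
    intro i hi
    rw [mem_symmDiff] at hi
    rcases hi with hi | hi
    · exact hP hi.1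
    · exact hQ hi.1
  have h3 : (symmDiff P Q).erase 0 = ∅ := by
    refine hI _ ?_ h2
    intro i hi
    rw [mem_erase] at hi
    have := mem_range.1 (hsub hi.2)
    rw [mem_Ico]
    omega
  have h4 : (symmDiff P Q).card ≤ 1 := by
    have := pred_card_le_card_erase (s := symmDiff P Q) (a := 0)
    rw [h3, card_empty] at this
    omega
  have h5 : (symmDiff P Q).card = (P \ Q).card + (Q \ P).card :=
    card_union_of_disjoint disjoint_sdiff_sdiff
  have h6 : (P \ Q).card + (P ∩ Q).card = P.card := card_sdiff_add_card_inter P Q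
  have h7 : (Q \ P).card + (Q ∩ P).card = Q.card := card_sdiff_add_card_inter Q P
  rw [inter_comm] at h7
  have h8 : (P \ Q).card = 0 := by omega
  have h9 : (Q \ P).card = 0 := by omega
  rw [card_eq_zero, sdiff_eq_empty_iff_subset] at h8 h9
  exact Subset.antisymm h8 h9

lemma first_dep (hc : ∀ w : W, w + w = 0) {x : ℕ → W} {n l m : ℕ} (h0 : x 0 = 0)
    (hx : ∀ i < n, ∀ j < n, x i = x j → i = j) (hm : m < n) (hI : Indep x m) :
    (D x l m).card + (min l m - 3) ≤ (D x l (m + 1)).card := by
  classical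
  set O := (Ico (m - l) m).filter (fun p => x p + x m ∈ D x l m) with hO
  set N := (Ico (m - l) m).filter (fun p => ¬ x p + x m ∈ D x l m) with hN
  have key : ∀ p ∈ O, ∃ P : Finset ℕ, p ∈ P ∧ P ⊆ range m ∧ P.card = 3 ∧
      ∑ i ∈ P, x i = x m := by
    intro p hp
    rw [hO, mem_filter, mem_Ico, mem_D] at hp
    obtain ⟨⟨hp1, hp2⟩, i, j, h1, h2, h3, h4⟩ := hp
    have hxm : x m = x p + (x i + x j) := by
      rw [h4, ← add_assoc, hc, zero_add]
    have hpi : p ≠ i := by
      rintro rfl
      rw [← add_assoc, hc, zero_add] at hxm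
      have := hx m hm j (by omega) hxm
      omega
    have hpj : p ≠ j := by
      rintro rfl
      rw [add_comm (x i), ← add_assoc, hc, zero_add] at hxm
      have := hx m hm i (by omega) hxm
      omega
    refine ⟨{p, i, j}, by simp, ?_, ?_, ?_⟩
    · intro q hq
      simp only [mem_insert, mem_singleton] at hq
      rw [mem_range]
      omega
    · rw [card_insert_of_notMem, card_pair (by omega)]
      simp [hpi, hpj]
    · rw [sum_insert, sum_pair (by omega), hxm]
      simp [hpi, hpj]
  have hO3 : O.card ≤ 3 := by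
    rcases O.eq_empty_or_nonempty with h | ⟨p, hp⟩
    · rw [h]; simp
    · obtain ⟨P, hpP, hP, hP3, hPs⟩ := key p hp
      rw [← hP3]
      refine card_le_card ?_
      intro q hq
      obtain ⟨Q, hqQ, hQ, hQ3, hQs⟩ := key q hq
      rw [unique_triple hc h0 hI P Q hP hQ hP3 hQ3 (hPs.trans hQs.symm)]
      exact hqQ
  have hON : O.card + N.card = min l m := by
    rw [hO, hN, card_filter_add_card_filter_not, Nat.card_Ico]
    omega
  have h1 := card_new (l := l) hx hm N
    (fun p hp => by rw [hN, mem_filter, mem_Ico] at hp; omega)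
    (fun p hp => by rw [hN, mem_filter] at hp; exact hp.2)
  omega

/-- state A: all points so far are affinely independent -/
def StA (x : ℕ → W) (l m : ℕ) : Prop :=
  Indep x m ∧ ∑ j ∈ range m, min l j ≤ (D x l m).card ∧ (U x m).card ≤ 2 ^ (m - 1)

/-- state B -/
def StB (x : ℕ → W) (l m : ℕ) : Prop :=
  4 ≤ m ∧ ∃ d, (U x m).card ≤ 2 ^ d ∧ T l d ≤ (D x l m).card ∧ (l ≤ m ∨ 2 ^ d ≤ m)

lemma T_succ (l d : ℕ) : T l (d + 1) = T l d + min l (2 ^ d) := sum_range_succ _ _

lemma T_mono (l : ℕ) : Monotone (T l) := by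
  refine monotone_nat_of_le_succ (fun d => ?_)
  rw [T_succ]
  exact Nat.le_add_right _ _

lemma num (l m : ℕ) (hl : l ≤ 5) (hm : 4 ≤ m) :
    T l (m - 1) ≤ ∑ j ∈ range m, min l j + (min l m - 3) := by
  rcases Nat.lt_or_ge m 5 with h | h
  · have : m = 4 := by omega
    subst this
    interval_cases l <;> decide
  · induction m, h using Nat.le_induction with
    | base => interval_cases l <;> decide
    | succ m h ih =>
      have h1 := ih (by omega)
      obtain ⟨k, rfl⟩ : ∃ k, m = k + 1 := ⟨m - 1, by omega⟩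
      rw [Nat.add_sub_cancel] at h1 ⊢
      rw [T_succ, sum_range_succ]
      have h2 : min l (2 ^ k) ≤ l := min_le_left _ _
      have h3 : min l (k + 1) = l := min_eq_left (by omega)
      have h4 : min l (k + 1 + 1) = l := min_eq_left (by omega)
      rw [h3] at h1 ⊢
      rw [h4]
      omega

lemma step (hc : ∀ w : W, w + w = 0) {x : ℕ → W} {n l m : ℕ} (h0 : x 0 = 0) (hl : l ≤ 5)
    (hx : ∀ i < n, ∀ j < n, x i = x j → i = j) (hm1 : 1 ≤ m) (hm : m < n)
    (h : StA x l m ∨ StB x l m) : StA x l (m + 1) ∨ StB x l (m + 1) := by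
  by_cases hmem : x m ∈ U x m
  · right
    have hU := U_succ_of_mem hc x m hmem
    have hmono : (D x l m).card ≤ (D x l (m + 1)).card := card_le_card D_mono
    rcases h with ⟨hI, hD, hUc⟩ | ⟨hm4, d, hUc, hT, hor⟩
    · have hm3 : 3 ≤ m := by
        by_contra hlt
        have hmem' := hmem
        interval_cases m
        · simp [U, h0] at hmem'
          have := hx 1 hm 0 (by omega) (hmem'.trans h0.symm)
          omega
        · simp [U, h0] at hmem'
          rcases hmem' with h | h
          · have := hx 2 hm 0 (by omega) (h.trans h0.symm)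
            omega
          · have := hx 2 hm 1 (by omega) h
            omega
      rcases Nat.lt_or_ge m 4 with h4 | h4
      · have : m = 3 := by omega
        subst this
        refine ⟨le_refl _, 2, ?_, ?_, Or.inr (by norm_num)⟩
        · rw [hU]; exact hUc
        · refine le_trans ?_ (hD.trans hmono)
          simp only [T, sum_range_succ, sum_range_zero]
          norm_num
      · refine ⟨by omega, m - 1, ?_, ?_, Or.inl (by omega)⟩
        · rw [hU]; exact hUc
        · have h1 := num l m hl h4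
          have h2 := first_dep (l := l) hc h0 hx hm hI
          omega
    · refine ⟨by omega, d, ?_, hT.trans hmono, ?_⟩
      · rw [hU]; exact hUc
      · rcases hor with h | h
        · exact Or.inl (by omega)
        · exact Or.inr (by omega)
  · have hj := jump (l := l) hc hx hm hmem
    have hU := card_U_succ x m
    rcases h with ⟨hI, hD, hUc⟩ | ⟨hm4, d, hUc, hT, hor⟩
    · left
      refine ⟨?_, ?_, ?_⟩
      · intro I hIs hsum
        by_cases hmI : m ∈ I
        · exfalso
          rw [← add_sum_erase _ _ hmI] at hsum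
          have h1 : ∑ i ∈ I.erase m, x i ∈ U x m := by
            refine sum_induction _ (fun w => w ∈ U x m)
              (fun a b ha hb => add_mem_U hc x m a ha b hb) (zero_mem_U x m) ?_
            intro i hi
            rw [mem_erase] at hi
            have := mem_Ico.1 (hIs hi.2)
            exact x_mem_U x (by omega)
          have h2 : x m = ∑ i ∈ I.erase m, x i := by
            have h3 := hc (∑ i ∈ I.erase m, x i)
            exact add_right_cancel (hsum.trans h3.symm)
          exact hmem (h2 ▸ h1)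
        · refine hI I ?_ hsum
          intro i hi
          have h1 := mem_Ico.1 (hIs hi)
          have h2 : i ≠ m := fun h => hmI (h ▸ hi)
          rw [mem_Ico]
          omega
      · rw [sum_range_succ]
        omega
      · obtain ⟨k, rfl⟩ : ∃ k, m = k + 1 := ⟨m - 1, by omega⟩
        rw [Nat.add_sub_cancel] at hUc ⊢
        rw [pow_succ]
        omega
    · right
      refine ⟨by omega, d + 1, ?_, ?_, ?_⟩
      · rw [pow_succ]
        omega
      · rw [T_succ]
        have : min l (2 ^ d) ≤ min l m := by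
          rcases hor with h | h
          · rw [min_eq_left h]
            exact min_le_left _ _
          · exact min_le_min_left _ h
        omega
      · left
        rcases hor with h | h
        · omega
        · omega

lemma states (hc : ∀ w : W, w + w = 0) {x : ℕ → W} {n l : ℕ} (h0 : x 0 = 0) (hl : l ≤ 5)
    (hx : ∀ i < n, ∀ j < n, x i = x j → i = j) (m : ℕ) (hm1 : 1 ≤ m) (hm : m ≤ n) :
    StA x l m ∨ StB x l m := by
  induction m, hm1 using Nat.le_induction with
  | base =>
    left
    refine ⟨?_, ?_, ?_⟩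
    · intro I hI _
      rw [Ico_self, subset_empty] at hI
      exact hI
    · simp
    · simp [U, h0]
  | succ m hm1 ih => exact step hc h0 hl hx hm1 (by omega) (ih (by omega))

lemma card_le_U {x : ℕ → W} {n : ℕ} (hx : ∀ i < n, ∀ j < n, x i = x j → i = j) :
    n ≤ (U x n).card := by
  have h1 : ((range n).image x).card = n := by
    rw [card_image_of_injOn, card_range]
    intro i hi j hj hij
    exact hx i (mem_range.1 hi) j (mem_range.1 hj) hij
  refine h1.symm.le.trans (card_le_card ?_)
  intro w hw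
  rw [mem_image] at hw
  obtain ⟨i, hi, rfl⟩ := hw
  exact x_mem_U x (mem_range.1 hi)

lemma num2 (l n : ℕ) : T l (Nat.clog 2 n) ≤ ∑ j ∈ range n, min l j := by
  rw [T]
  have h1 : ∑ k ∈ range (Nat.clog 2 n), min l (2 ^ k) =
      ∑ j ∈ (range (Nat.clog 2 n)).image (fun k => 2 ^ k), min l j := by
    rw [sum_image]
    intro a _ b _ hab
    exact Nat.pow_right_injective (le_refl 2) hab
  rw [h1]
  refine sum_le_sum_of_subset ?_
  intro j hj
  rw [mem_image] at hj
  obtain ⟨k, hk, rfl⟩ := hj
  rw [mem_range] at hk ⊢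
  by_contra hlt
  rw [not_lt] at hlt
  have := Nat.clog_le_of_le_pow hlt
  omega

theorem lower (hc : ∀ w : W, w + w = 0) {x : ℕ → W} {n l : ℕ} (h0 : x 0 = 0) (hl : l ≤ 5)
    (hx : ∀ i < n, ∀ j < n, x i = x j → i = j) :
    T l (Nat.clog 2 n) ≤ (D x l n).card := by
  rcases Nat.eq_zero_or_pos n with rfl | hn
  · simp [T]
  rcases states hc h0 hl hx n hn (le_refl n) with ⟨hI, hD, hUc⟩ | ⟨hm4, d, hUc, hT, hor⟩
  · exact (num2 l n).trans hD
  · refine le_trans (T_mono l ?_) hT
    exact Nat.clog_le_of_le_pow ((card_le_U hx).trans hUc)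

/-- the zero-sum sets of even size below `m` are `∅` and `P` -/
def OneRel (x : ℕ → W) (m : ℕ) (P : Finset ℕ) : Prop :=
  P ⊆ range m ∧ ∀ I ⊆ range m, Even I.card → ∑ i ∈ I, x i = 0 → I = ∅ ∨ I = P

omit [DecidableEq W] in
lemma even_indep (h0x : ℕ → W) {m : ℕ} (h0 : h0x 0 = 0) (hI : Indep h0x m) (I : Finset ℕ)
    (hIm : I ⊆ range m) (he : Even I.card) (hs : ∑ i ∈ I, h0x i = 0) : I = ∅ := by
  have h2 : ∑ i ∈ I.erase 0, h0x i = 0 := by
    rw [← hs]
    exact sum_erase _ h0
  have h3 : I.erase 0 = ∅ := by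
    refine hI _ ?_ h2
    intro i hi
    rw [mem_erase] at hi
    have := mem_range.1 (hIm hi.2)
    rw [mem_Ico]
    omega
  have h4 := pred_card_le_card_erase (s := I) (a := 0)
  rw [h3, card_empty] at h4
  have h5 : I.card = 0 := by
    rcases he with ⟨k, hk⟩
    omega
  exact card_eq_zero.1 h5

lemma card_symmDiff_add (P Q : Finset ℕ) :
    (symmDiff P Q).card + 2 * (P ∩ Q).card = P.card + Q.card := by
  have h5 : (symmDiff P Q).card = (P \ Q).card + (Q \ P).card :=
    card_union_of_disjoint disjoint_sdiff_sdiff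
  have h6 : (P \ Q).card + (P ∩ Q).card = P.card := card_sdiff_add_card_inter P Q
  have h7 : (Q \ P).card + (Q ∩ P).card = Q.card := card_sdiff_add_card_inter Q P
  rw [inter_comm] at h7
  omega

/-- the triple of an old difference -/
lemma triple (hc : ∀ w : W, w + w = 0) {x : ℕ → W} {n l m : ℕ}
    (hx : ∀ i < n, ∀ j < n, x i = x j → i = j) (hm : m < n) (p : ℕ) (hp2 : p < m)
    (hp : x p + x m ∈ D x l m) : ∃ P : Finset ℕ, p ∈ P ∧ P ⊆ range m ∧ P.card = 3 ∧
      ∑ i ∈ P, x i = x m := by
  rw [mem_D] at hp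
  obtain ⟨i, j, h1, h2, h3, h4⟩ := hp
  have hxm : x m = x p + (x i + x j) := by
    rw [h4, ← add_assoc, hc, zero_add]
  have hpi : p ≠ i := by
    rintro rfl
    rw [← add_assoc, hc, zero_add] at hxm
    have := hx m hm j (by omega) hxm
    omega
  have hpj : p ≠ j := by
    rintro rfl
    rw [add_comm (x i), ← add_assoc, hc, zero_add] at hxm
    have := hx m hm i (by omega) hxm
    omega
  refine ⟨{p, i, j}, by simp, ?_, ?_, ?_⟩
  · intro q hq
    simp only [mem_insert, mem_singleton] at hq
    rw [mem_range]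
    omega
  · rw [card_insert_of_notMem, card_pair (by omega)]
    simp [hpi, hpj]
  · rw [sum_insert, sum_pair (by omega), hxm]
    simp [hpi, hpj]

lemma gain {x : ℕ → W} {n l m : ℕ}
    (hx : ∀ i < n, ∀ j < n, x i = x j → i = j) (hm : m < n) (Z : Finset ℕ)
    (hZ : ∀ p, p < m → x p + x m ∈ D x l m → p ∈ Z) :
    (D x l m).card + (min l m - Z.card) ≤ (D x l (m + 1)).card := by
  classical
  set O := (Ico (m - l) m).filter (fun p => x p + x m ∈ D x l m) with hO
  set N := (Ico (m - l) m).filter (fun p => ¬ x p + x m ∈ D x l m) with hN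
  have hO3 : O.card ≤ Z.card := by
    refine card_le_card ?_
    intro p hp
    rw [hO, mem_filter, mem_Ico] at hp
    exact hZ p hp.1.2 hp.2
  have hON : O.card + N.card = min l m := by
    rw [hO, hN, card_filter_add_card_filter_not, Nat.card_Ico]
    omega
  have h1 := card_new (l := l) hx hm N
    (fun p hp => by rw [hN, mem_filter, mem_Ico] at hp; omega)
    (fun p hp => by rw [hN, mem_filter] at hp; exact hp.2)
  omega

/-- the second dependent vertex -/
lemma second_dep (hc : ∀ w : W, w + w = 0) {x : ℕ → W} {n l m : ℕ}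
    (hx : ∀ i < n, ∀ j < n, x i = x j → i = j) (hm : m < n) (R : Finset ℕ) (hR : R.card = 4)
    (hI : OneRel x m R) :
    (D x l m).card + (min l m - 5) ≤ (D x l (m + 1)).card := by
  classical
  by_cases hex : ∃ p, p < m ∧ x p + x m ∈ D x l m
  · obtain ⟨p, hp, hpD⟩ := hex
    obtain ⟨P, hpP, hP, hP3, hPs⟩ := triple hc hx hm p hp hpD
    have key : ∀ q, q < m → x q + x m ∈ D x l m → q ∈ P ∪ symmDiff P R ∧
        (q ∉ P → (symmDiff P R).card = 3) := by
      intro q hq hqD
      obtain ⟨Q, hqQ, hQ, hQ3, hQs⟩ := triple hc hx hm q hq hqD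
      have h1 := sum_symmDiff hc x P Q (hPs.trans hQs.symm)
      have h2 := card_symmDiff_add P Q
      have h3 : symmDiff P Q ⊆ range m := by
        intro i hi
        rw [mem_symmDiff] at hi
        rcases hi with hi | hi
        · exact hP hi.1
        · exact hQ hi.1
      rcases hI.2 _ h3 ⟨3 - (P ∩ Q).card, by omega⟩ h1 with h | h
      · have hPQ : P = Q := symmDiff_eq_bot.1 h
        exact ⟨mem_union_left _ (hPQ ▸ hqQ), fun h' => absurd (hPQ ▸ hqQ) h'⟩
      · have hQ' : Q = symmDiff P R := by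
          rw [← h, symmDiff_symmDiff_cancel_left]
        exact ⟨mem_union_right _ (hQ' ▸ hqQ), fun _ => hQ' ▸ hQ3⟩
    by_cases hall : ∀ q, q < m → x q + x m ∈ D x l m → q ∈ P
    · have := gain hx hm P hall
      omega
    · push Not at hall
      obtain ⟨q, hq, hqD, hqP⟩ := hall
      have h3 := (key q hq hqD).2 hqP
      have h4 := gain hx hm (P ∪ symmDiff P R) (fun q hq hqD => (key q hq hqD).1)
      have h5 := card_symmDiff_add P R
      have h6 : (P ∪ symmDiff P R).card + (P ∩ symmDiff P R).card = P.card + (symmDiff P R).card :=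
        card_union_add_card_inter P _
      have h7 : P ∩ symmDiff P R = P \ R := by
        ext i
        simp only [mem_inter, mem_symmDiff, mem_sdiff]
        tauto
      have h8 : (P \ R).card + (P ∩ R).card = P.card := card_sdiff_add_card_inter P R
      rw [h7] at h6
      omega
  · push Not at hex
    have := gain hx hm ∅ (fun p hp h => absurd h (hex p hp))
    rw [card_empty] at this
    omega

/-- state C: one relation, of size four -/
def StC (x : ℕ → W) (l m : ℕ) : Prop :=
  4 ≤ m ∧ (∃ R : Finset ℕ, R.card = 4 ∧ OneRel x m R) ∧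
    ∑ j ∈ range m, min l j ≤ (D x l m).card + 3 ∧ (U x m).card ≤ 2 ^ (m - 2)

/-- state B for `l = 6` -/
def StB6 (x : ℕ → W) (l m : ℕ) : Prop :=
  5 ≤ m ∧ ∃ d, (U x m).card ≤ 2 ^ d ∧ T l d ≤ (D x l m).card ∧
    T l (d + 1) ≤ (D x l m).card + min l m

/-- with one relation and `m` vertices: a dependent vertex `m ≥ 5` gives state B -/
lemma num5 (m : ℕ) (hm : 5 ≤ m) :
    T 6 (m - 2) + 3 ≤ ∑ j ∈ range m, min 6 j + (min 6 m - 5) := by
  rcases Nat.lt_or_ge m 7 with h | h
  · interval_cases m <;> decide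
  · induction m, h using Nat.le_induction with
    | base => decide
    | succ m h ih =>
      have h1 := ih (by omega)
      obtain ⟨k, rfl⟩ : ∃ k, m = k + 2 := ⟨m - 2, by omega⟩
      have e1 : k + 2 - 2 = k := by omega
      have e2 : k + 2 + 1 - 2 = k + 1 := by omega
      rw [e1] at h1
      rw [e2, T_succ, sum_range_succ]
      have h2 : min 6 (2 ^ k) ≤ 6 := min_le_left _ _
      have h3 : min 6 (k + 2) = 6 := min_eq_left (by omega)
      have h4 : min 6 (k + 2 + 1) = 6 := min_eq_left (by omega)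
      rw [h3] at h1 ⊢
      rw [h4]
      omega

lemma num6 (m : ℕ) (hm : 4 ≤ m) : T 6 (m - 1) ≤ ∑ j ∈ range (m + 1), min 6 j ∧
    T 6 m ≤ ∑ j ∈ range (m + 1), min 6 j + min 6 (m + 1) := by
  rcases Nat.lt_or_ge m 6 with h | h
  · interval_cases m <;> decide
  · induction m, h using Nat.le_induction with
    | base => decide
    | succ m h ih =>
      have h1 := ih (by omega)
      obtain ⟨k, rfl⟩ : ∃ k, m = k + 1 := ⟨m - 1, by omega⟩
      rw [Nat.add_sub_cancel] at h1 ⊢
      rw [sum_range_succ _ (k + 1 + 1), T_succ 6 (k + 1)]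
      have h2 : min 6 (2 ^ (k + 1)) ≤ 6 := min_le_left _ _
      have h3 : min 6 (k + 1 + 1) = 6 := min_eq_left (by omega)
      have h4 : min 6 (k + 1 + 1 + 1) = 6 := min_eq_left (by omega)
      rw [h3] at h1 ⊢
      rw [h4]
      omega

lemma num8 (n : ℕ) (hn : 6 ≤ n) : n ≤ 2 ^ (n - 3) ∧ T 6 (n - 3) + 3 ≤ ∑ j ∈ range n, min 6 j := by
  induction n, hn using Nat.le_induction with
  | base => decide
  | succ n h ih =>
    obtain ⟨k, rfl⟩ : ∃ k, n = k + 3 := ⟨n - 3, by omega⟩
    have e1 : k + 3 - 3 = k := by omega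
    have e2 : k + 3 + 1 - 3 = k + 1 := by omega
    rw [e1] at ih
    rw [e2, T_succ, sum_range_succ, pow_succ]
    have h2 : min 6 (2 ^ k) ≤ 6 := min_le_left _ _
    have h3 : min 6 (k + 3) = 6 := min_eq_left (by omega)
    rw [h3]
    omega

lemma num7 (n : ℕ) (hn : 4 ≤ n) : T 6 (Nat.clog 2 n) + 3 ≤ ∑ j ∈ range n, min 6 j := by
  rcases Nat.lt_or_ge n 6 with h | h
  · rcases (show n = 4 ∨ n = 5 by omega) with rfl | rfl
    · have h1 : Nat.clog 2 4 ≤ 2 := Nat.clog_le_of_le_pow (by norm_num)
      have h2 := T_mono 6 h1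
      have h3 : T 6 2 + 3 ≤ ∑ j ∈ range 4, min 6 j := by decide
      omega
    · have h1 : Nat.clog 2 5 ≤ 3 := Nat.clog_le_of_le_pow (by norm_num)
      have h2 := T_mono 6 h1
      have h3 : T 6 3 + 3 ≤ ∑ j ∈ range 5, min 6 j := by decide
      omega
  · obtain ⟨h1, h2⟩ := num8 n h
    have h3 := T_mono 6 (Nat.clog_le_of_le_pow h1)
    omega

lemma sum_mem_U (hc : ∀ w : W, w + w = 0) (x : ℕ → W) (m : ℕ) (I : Finset ℕ)
    (hI : ∀ i ∈ I, i < m) : ∑ i ∈ I, x i ∈ U x m :=
  sum_induction _ (fun w => w ∈ U x m) (fun a b ha hb => add_mem_U hc x m a ha b hb)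
    (zero_mem_U x m) (fun i hi => x_mem_U x (hI i hi))

/-- a zero-sum set of indices `≤ m` does not contain `m`, if `x m` is independent -/
lemma not_mem_of_jump (hc : ∀ w : W, w + w = 0) {x : ℕ → W} {m : ℕ} (h : x m ∉ U x m)
    (I : Finset ℕ) (hI : ∀ i ∈ I, i < m + 1) (hsum : ∑ i ∈ I, x i = 0) : m ∉ I := by
  intro hmI
  rw [← add_sum_erase _ _ hmI] at hsum
  have h1 : ∑ i ∈ I.erase m, x i ∈ U x m := by
    refine sum_mem_U hc x m _ ?_
    intro i hi
    rw [mem_erase] at hi
    have := hI i hi.2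
    omega
  have h2 : x m = ∑ i ∈ I.erase m, x i := by
    have h3 := hc (∑ i ∈ I.erase m, x i)
    exact add_right_cancel (hsum.trans h3.symm)
  exact h (h2 ▸ h1)

omit [DecidableEq W] in
lemma oneRel_insert (hc : ∀ w : W, w + w = 0) {x : ℕ → W} {m : ℕ} (h0 : x 0 = 0)
    (hI : Indep x m) (P : Finset ℕ) (hP : P ⊆ range m) (hP3 : P.card = 3)
    (hs : ∑ i ∈ P, x i = x m) : OneRel x (m + 1) (insert m P) := by
  refine ⟨?_, ?_⟩
  · intro i hi
    rw [mem_insert] at hi
    rw [mem_range]
    rcases hi with rfl | hi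
    · omega
    · have := mem_range.1 (hP hi)
      omega
  · intro I hIs he hsum
    by_cases hmI : m ∈ I
    · right
      have h1 := hsum
      rw [← add_sum_erase _ _ hmI] at h1
      have h2 : ∑ i ∈ I.erase m, x i = ∑ i ∈ P, x i := by
        rw [hs]
        have h3 := hc (∑ i ∈ I.erase m, x i)
        exact (add_right_cancel (h1.trans h3.symm)).symm
      have h3 := sum_symmDiff hc x _ _ h2
      have h4 := card_symmDiff_add (I.erase m) P
      have h5 : (I.erase m).card + 1 = I.card := card_erase_add_one hmI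
      have h6 : symmDiff (I.erase m) P = ∅ := by
        refine even_indep x h0 hI _ ?_ ?_ h3
        · intro i hi
          rw [mem_symmDiff] at hi
          rcases hi with hi | hi
          · have := mem_range.1 (hIs (mem_of_mem_erase hi.1))
            have := ne_of_mem_erase hi.1
            rw [mem_range]
            omega
          · exact hP hi.1
        · rw [Nat.even_iff] at he ⊢
          omega
      have h7 : I.erase m = P := symmDiff_eq_bot.1 h6
      rw [← h7, insert_erase hmI]
    · left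
      refine even_indep x h0 hI _ ?_ he hsum
      intro i hi
      have h1 := mem_range.1 (hIs hi)
      have h2 : i ≠ m := fun h => hmI (h ▸ hi)
      rw [mem_range]
      omega

lemma step6 (hc : ∀ w : W, w + w = 0) {x : ℕ → W} {n m : ℕ} (h0 : x 0 = 0)
    (hx : ∀ i < n, ∀ j < n, x i = x j → i = j) (hm1 : 1 ≤ m) (hm : m < n)
    (h : StA x 6 m ∨ StC x 6 m ∨ StB6 x 6 m) : StA x 6 (m + 1) ∨ StC x 6 (m + 1) ∨
      StB6 x 6 (m + 1) := by
  have hmono : (D x 6 m).card ≤ (D x 6 (m + 1)).card := card_le_card D_mono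
  by_cases hmem : x m ∈ U x m
  · right
    have hU := U_succ_of_mem hc x m hmem
    rcases h with ⟨hI, hD, hUc⟩ | ⟨hm4, ⟨R, hR4, hR⟩, hD, hUc⟩ | ⟨hm5, d, hUc, hT, hT'⟩
    · have hm3 : 3 ≤ m := by
        by_contra hlt
        have hmem' := hmem
        interval_cases m
        · simp [U, h0] at hmem'
          have := hx 1 hm 0 (by omega) (hmem'.trans h0.symm)
          omega
        · simp [U, h0] at hmem'
          rcases hmem' with h | h
          · have := hx 2 hm 0 (by omega) (h.trans h0.symm)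
            omega
          · have := hx 2 hm 1 (by omega) h
            omega
      by_cases hex : ∃ P ⊆ range m, P.card = 3 ∧ ∑ i ∈ P, x i = x m
      · left
        obtain ⟨P, hP, hP3, hPs⟩ := hex
        refine ⟨by omega, ⟨insert m P, ?_, oneRel_insert hc h0 hI P hP hP3 hPs⟩, ?_, ?_⟩
        · rw [card_insert_of_notMem, hP3]
          intro hmP
          have := mem_range.1 (hP hmP)
          omega
        · have h2 := first_dep (l := 6) hc h0 hx hm hI
          rw [sum_range_succ]
          omega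
        · rw [hU]
          have e : m + 1 - 2 = m - 1 := by omega
          rw [e]
          exact hUc
      · right
        rcases Nat.lt_or_ge m 4 with h4 | h4
        · exfalso
          have : m = 3 := by omega
          subst this
          apply hex
          refine ⟨range 3, subset_rfl, by simp, ?_⟩
          have hmem' := hmem
          simp [U, h0] at hmem'
          simp only [sum_range_succ, sum_range_zero, h0]
          have a0 : x 3 ≠ 0 := fun h => by
            have := hx 3 hm 0 (by omega) (h.trans h0.symm)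
            omega
          have a1 : x 3 ≠ x 1 := fun h => by
            have := hx 3 hm 1 (by omega) h
            omega
          have a2 : x 3 ≠ x 2 := fun h => by
            have := hx 3 hm 2 (by omega) h
            omega
          rw [zero_add, zero_add]
          tauto
        · obtain ⟨n1, n2⟩ := num6 m h4
          have h5 := gain (l := 6) hx hm ∅ (fun p hp hpD => by
            obtain ⟨P, _, hP, hP3, hPs⟩ := triple hc hx hm p hp hpD
            exact absurd ⟨P, hP, hP3, hPs⟩ hex)
          rw [card_empty] at h5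
          rw [sum_range_succ] at n1 n2
          refine ⟨by omega, m - 1, ?_, by omega, ?_⟩
          · rw [hU]
            exact hUc
          · have e : m - 1 + 1 = m := by omega
            rw [e]
            omega
    · right
      have hm5 : 5 ≤ m := by
        by_contra hlt
        have : m = 4 := by omega
        subst this
        have h1 := card_le_U (x := x) (n := 5) (fun i hi j hj => hx i (by omega) j (by omega))
        rw [show (5 : ℕ) = 4 + 1 from rfl, hU] at h1
        norm_num at hUc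
        omega
      have n1 := num5 m hm5
      have h2 := second_dep (l := 6) hc hx hm R hR4 hR
      have h3 : T 6 (m - 2) ≤ (D x 6 (m + 1)).card := by omega
      refine ⟨by omega, m - 2, ?_, h3, ?_⟩
      · rw [hU]; exact hUc
      · rw [T_succ]
        have h4 : min 6 (2 ^ (m - 2)) ≤ 6 := min_le_left _ _
        have h5 : min 6 (m + 1) = 6 := min_eq_left (by omega)
        rw [h5]
        omega
    · right
      refine ⟨by omega, d, ?_, hT.trans hmono, ?_⟩
      · rw [hU]; exact hUc
      · omega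
  · have hj := jump (l := 6) hc hx hm hmem
    have hU := card_U_succ x m
    rcases h with ⟨hI, hD, hUc⟩ | ⟨hm4, ⟨R, hR4, hR⟩, hD, hUc⟩ | ⟨hm5, d, hUc, hT, hT'⟩
    · left
      refine ⟨?_, ?_, ?_⟩
      · intro I hIs hsum
        have hmI := not_mem_of_jump hc hmem I (fun i hi => (mem_Ico.1 (hIs hi)).2) hsum
        refine hI I ?_ hsum
        intro i hi
        have h1 := mem_Ico.1 (hIs hi)
        have h2 : i ≠ m := fun h => hmI (h ▸ hi)
        rw [mem_Ico]
        omega
      · rw [sum_range_succ]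
        omega
      · obtain ⟨k, rfl⟩ : ∃ k, m = k + 1 := ⟨m - 1, by omega⟩
        rw [Nat.add_sub_cancel] at hUc ⊢
        rw [pow_succ]
        omega
    · right
      left
      refine ⟨by omega, ⟨R, hR4, ?_, ?_⟩, ?_, ?_⟩
      · exact hR.1.trans (range_subset_range.2 (by omega))
      · intro I hIs he hsum
        have hmI := not_mem_of_jump hc hmem I (fun i hi => mem_range.1 (hIs hi)) hsum
        refine hR.2 I ?_ he hsum
        intro i hi
        have h1 := mem_range.1 (hIs hi)
        have h2 : i ≠ m := fun h => hmI (h ▸ hi)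
        rw [mem_range]
        omega
      · rw [sum_range_succ]
        omega
      · obtain ⟨k, rfl⟩ : ∃ k, m = k + 2 := ⟨m - 2, by omega⟩
        have e1 : k + 2 - 2 = k := by omega
        have e2 : k + 2 + 1 - 2 = k + 1 := by omega
        rw [e1] at hUc
        rw [e2, pow_succ]
        omega
    · right
      right
      refine ⟨by omega, d + 1, ?_, by omega, ?_⟩
      · rw [pow_succ]
        omega
      · rw [T_succ]
        have h4 : min 6 (2 ^ (d + 1)) ≤ 6 := min_le_left _ _
        have h5 : min 6 (m + 1) = 6 := min_eq_left (by omega)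
        rw [h5]
        omega

lemma states6 (hc : ∀ w : W, w + w = 0) {x : ℕ → W} {n : ℕ} (h0 : x 0 = 0)
    (hx : ∀ i < n, ∀ j < n, x i = x j → i = j) (m : ℕ) (hm1 : 1 ≤ m) (hm : m ≤ n) :
    StA x 6 m ∨ StC x 6 m ∨ StB6 x 6 m := by
  induction m, hm1 using Nat.le_induction with
  | base =>
    left
    refine ⟨?_, ?_, ?_⟩
    · intro I hI _
      rw [Ico_self, subset_empty] at hI
      exact hI
    · simp
    · simp [U, h0]
  | succ m hm1 ih => exact step6 hc h0 hx hm1 (by omega) (ih (by omega))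

theorem lower6 (hc : ∀ w : W, w + w = 0) {x : ℕ → W} {n : ℕ} (h0 : x 0 = 0)
    (hx : ∀ i < n, ∀ j < n, x i = x j → i = j) :
    T 6 (Nat.clog 2 n) ≤ (D x 6 n).card := by
  rcases Nat.eq_zero_or_pos n with rfl | hn
  · simp [T]
  rcases states6 hc h0 hx n hn (le_refl n) with ⟨hI, hD, hUc⟩ | ⟨hm4, _, hD, _⟩ |
    ⟨hm5, d, hUc, hT, hT'⟩
  · exact (num2 6 n).trans hD
  · have := num7 n hm4
    omega
  · refine le_trans (T_mono 6 ?_) hT
    exact Nat.clog_le_of_le_pow ((card_le_U hx).trans hUc)

theorem lower' (hc : ∀ w : W, w + w = 0) {x : ℕ → W} {n l : ℕ} (h0 : x 0 = 0) (hl : l ≤ 6)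
    (hx : ∀ i < n, ∀ j < n, x i = x j → i = j) :
    T l (Nat.clog 2 n) ≤ (D x l n).card := by
  rcases Nat.lt_or_ge l 6 with h | h
  · exact lower hc h0 (by omega) hx
  · obtain rfl : l = 6 := le_antisymm hl h
    exact lower6 hc h0 hx

/-- the sequence `1, 2, 4, 6, 7, 8, 9, ...` -/
def h (k : ℕ) : ℕ := if k < 3 then 2 ^ k else k + 3

def G (l d : ℕ) : ℕ := ∑ k ∈ range d, min l (h k)

lemma h_le (k : ℕ) : h k ≤ k + 3 := by
  unfold h
  split_ifs with hk
  · interval_cases k <;> norm_num
  · exact le_rfl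

lemma h_le_pow (k : ℕ) : h k ≤ 2 ^ k := by
  unfold h
  split_ifs with hk
  · exact le_rfl
  · have key : ∀ j : ℕ, j + 3 + 3 ≤ 2 ^ (j + 3) := by
      intro j
      induction j with
      | zero => norm_num
      | succ j ih =>
        rw [show j + 1 + 3 = (j + 3) + 1 by omega, pow_succ]
        omega
    obtain ⟨j, rfl⟩ : ∃ j, k = j + 3 := ⟨k - 3, by omega⟩
    exact key j

lemma G_succ (l d : ℕ) : G l (d + 1) = G l d + min l (h d) := sum_range_succ _ _

lemma G_mono (l : ℕ) : Monotone (G l) := by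
  refine monotone_nat_of_le_succ (fun d => ?_)
  rw [G_succ]
  exact Nat.le_add_right _ _

lemma G_le_T (l d : ℕ) : G l d ≤ T l d :=
  sum_le_sum (fun k _ => min_le_min_left _ (h_le_pow k))

lemma numG (l k : ℕ) (hl : 6 ≤ l) : G l (k + 3) + 8 = ∑ j ∈ range (k + 6), min l j := by
  induction k with
  | zero =>
    simp only [G, sum_range_succ, sum_range_zero, h]
    norm_num
    omega
  | succ k ih =>
    have e : h (k + 3) = k + 6 := by
      unfold h
      rw [if_neg (by omega)]
    rw [show k + 1 + 3 = (k + 3) + 1 by omega, G_succ, e,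
      show k + 1 + 6 = (k + 6) + 1 by omega, sum_range_succ _ (k + 6)]
    omega

lemma numG' (l n : ℕ) (hl : 6 ≤ l) (hn : 4 ≤ n) :
    G l (Nat.clog 2 n) + 3 ≤ ∑ j ∈ range n, min l j := by
  rcases Nat.lt_or_ge n 6 with hlt | hge
  · rcases (show n = 4 ∨ n = 5 by omega) with rfl | rfl
    · have h1 : Nat.clog 2 4 ≤ 2 := Nat.clog_le_of_le_pow (by norm_num)
      have h2 := G_mono l h1
      have h3 : G l 2 + 3 ≤ ∑ j ∈ range 4, min l j := by
        simp only [G, sum_range_succ, sum_range_zero, h]
        norm_num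
        omega
      omega
    · have h1 : Nat.clog 2 5 ≤ 3 := Nat.clog_le_of_le_pow (by norm_num)
      have h2 := G_mono l h1
      have h3 : G l 3 + 3 ≤ ∑ j ∈ range 5, min l j := by
        simp only [G, sum_range_succ, sum_range_zero, h]
        norm_num
        omega
      omega
  · obtain ⟨h1, _⟩ := num8 n hge
    have h3 := G_mono l (Nat.clog_le_of_le_pow h1)
    obtain ⟨k, rfl⟩ : ∃ k, n = k + 6 := ⟨n - 6, by omega⟩
    have h4 := numG l k hl
    rw [show k + 6 - 3 = k + 3 by omega] at h3
    omega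

/-- the second dependent vertex, any relation -/
lemma second_dep' (hc : ∀ w : W, w + w = 0) {x : ℕ → W} {n l m : ℕ}
    (hx : ∀ i < n, ∀ j < n, x i = x j → i = j) (hm : m < n) (R : Finset ℕ)
    (hI : OneRel x m R) :
    (D x l m).card + (min l m - 6) ≤ (D x l (m + 1)).card := by
  classical
  by_cases hex : ∃ p, p < m ∧ x p + x m ∈ D x l m
  · obtain ⟨p, hp, hpD⟩ := hex
    obtain ⟨P, hpP, hP, hP3, hPs⟩ := triple hc hx hm p hp hpD
    have key : ∀ q, q < m → x q + x m ∈ D x l m → q ∈ P ∪ symmDiff P R ∧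
        (q ∉ P → (symmDiff P R).card = 3) := by
      intro q hq hqD
      obtain ⟨Q, hqQ, hQ, hQ3, hQs⟩ := triple hc hx hm q hq hqD
      have h1 := sum_symmDiff hc x P Q (hPs.trans hQs.symm)
      have h2 := card_symmDiff_add P Q
      have h3 : symmDiff P Q ⊆ range m := by
        intro i hi
        rw [mem_symmDiff] at hi
        rcases hi with hi | hi
        · exact hP hi.1
        · exact hQ hi.1
      rcases hI.2 _ h3 ⟨3 - (P ∩ Q).card, by omega⟩ h1 with h | h
      · have hPQ : P = Q := symmDiff_eq_bot.1 h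
        exact ⟨mem_union_left _ (hPQ ▸ hqQ), fun h' => absurd (hPQ ▸ hqQ) h'⟩
      · have hQ' : Q = symmDiff P R := by
          rw [← h, symmDiff_symmDiff_cancel_left]
        exact ⟨mem_union_right _ (hQ' ▸ hqQ), fun _ => hQ' ▸ hQ3⟩
    by_cases hall : ∀ q, q < m → x q + x m ∈ D x l m → q ∈ P
    · have := gain hx hm P hall
      omega
    · push Not at hall
      obtain ⟨q, hq, hqD, hqP⟩ := hall
      have h3 := (key q hq hqD).2 hqP
      have h4 := gain hx hm (P ∪ symmDiff P R) (fun q hq hqD => (key q hq hqD).1)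
      have h6 := card_union_le P (symmDiff P R)
      omega
  · push Not at hex
    have := gain hx hm ∅ (fun p hp h => absurd h (hex p hp))
    rw [card_empty] at this
    omega

omit [DecidableEq W] in
lemma exists_oneRel (hc : ∀ w : W, w + w = 0) {x : ℕ → W} {m : ℕ} (h0 : x 0 = 0)
    (hI : Indep x m) : ∃ R : Finset ℕ, OneRel x (m + 1) R := by
  classical
  have hmem : ∀ I ⊆ range (m + 1), Even I.card → ∑ i ∈ I, x i = 0 → I ≠ ∅ → m ∈ I := by
    intro I hIs he hsum hne
    by_contra hmI
    apply hne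
    refine even_indep x h0 hI _ ?_ he hsum
    intro i hi
    have h1 := mem_range.1 (hIs hi)
    have h2 : i ≠ m := fun h => hmI (h ▸ hi)
    rw [mem_range]
    omega
  by_cases hex : ∃ R ⊆ range (m + 1), R ≠ ∅ ∧ Even R.card ∧ ∑ i ∈ R, x i = 0
  · obtain ⟨R, hR, hRne, hRe, hRs⟩ := hex
    refine ⟨R, hR, ?_⟩
    intro I hIs he hsum
    by_cases hne : I = ∅
    · exact Or.inl hne
    · right
      have h1 := hmem I hIs he hsum hne
      have h2 := hmem R hR hRe hRs hRne
      have h3 := sum_symmDiff hc x I R (hsum.trans hRs.symm)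
      have h4 := card_symmDiff_add I R
      have h6 : symmDiff I R = ∅ := by
        refine even_indep x h0 hI _ ?_ ?_ h3
        · intro i hi
          rw [mem_symmDiff] at hi
          rw [mem_range]
          rcases hi with hi | hi
          · have h7 := mem_range.1 (hIs hi.1)
            have h8 : i ≠ m := fun h => hi.2 (h ▸ h2)
            omega
          · have h7 := mem_range.1 (hR hi.1)
            have h8 : i ≠ m := fun h => hi.2 (h ▸ h1)
            omega
        · rw [Nat.even_iff] at he hRe ⊢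
          omega
      exact symmDiff_eq_bot.1 h6
  · refine ⟨∅, empty_subset _, ?_⟩
    intro I hIs he hsum
    left
    by_contra hne
    exact hex ⟨I, hIs, hne, he, hsum⟩

/-- one relation, nothing lost -/
def StE (x : ℕ → W) (l m : ℕ) : Prop :=
  5 ≤ m ∧ (∃ R : Finset ℕ, OneRel x m R) ∧
    ∑ j ∈ range m, min l j ≤ (D x l m).card ∧ (U x m).card ≤ 2 ^ (m - 2)

/-- at least two relations -/
def StF (x : ℕ → W) (l m : ℕ) : Prop :=
  ∃ d, (U x m).card ≤ 2 ^ d ∧ G l d ≤ (D x l m).card ∧ d + 3 ≤ m

omit [DecidableEq W] in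
lemma oneRel_jump {x : ℕ → W} {m : ℕ} (R : Finset ℕ) (hR : OneRel x m R)
    (hj : ∀ I : Finset ℕ, (∀ i ∈ I, i < m + 1) → ∑ i ∈ I, x i = 0 → m ∉ I) :
    OneRel x (m + 1) R := by
  refine ⟨hR.1.trans (range_subset_range.2 (by omega)), ?_⟩
  intro I hIs he hsum
  have hmI := hj I (fun i hi => mem_range.1 (hIs hi)) hsum
  refine hR.2 I ?_ he hsum
  intro i hi
  have h1 := mem_range.1 (hIs hi)
  have h2 : i ≠ m := fun h => hmI (h ▸ hi)
  rw [mem_range]
  omega

lemma stepG (hc : ∀ w : W, w + w = 0) {x : ℕ → W} {n l m : ℕ} (hl : 6 ≤ l) (h0 : x 0 = 0)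
    (hx : ∀ i < n, ∀ j < n, x i = x j → i = j) (hm1 : 1 ≤ m) (hm : m < n)
    (hst : StA x l m ∨ StC x l m ∨ StE x l m ∨ StF x l m) :
    StA x l (m + 1) ∨ StC x l (m + 1) ∨ StE x l (m + 1) ∨ StF x l (m + 1) := by
  have hmono : (D x l m).card ≤ (D x l (m + 1)).card := card_le_card D_mono
  by_cases hmem : x m ∈ U x m
  · right
    have hU := U_succ_of_mem hc x m hmem
    rcases hst with ⟨hI, hD, hUc⟩ | ⟨hm4, ⟨R, hR4, hR⟩, hD, hUc⟩ |
      ⟨hm5, ⟨R, hR⟩, hD, hUc⟩ | ⟨d, hUc, hT, hT'⟩
    · have hm3 : 3 ≤ m := by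
        by_contra hlt
        have hmem' := hmem
        interval_cases m
        · simp [U, h0] at hmem'
          have := hx 1 hm 0 (by omega) (hmem'.trans h0.symm)
          omega
        · simp [U, h0] at hmem'
          rcases hmem' with h | h
          · have := hx 2 hm 0 (by omega) (h.trans h0.symm)
            omega
          · have := hx 2 hm 1 (by omega) h
            omega
      by_cases hex : ∃ P ⊆ range m, P.card = 3 ∧ ∑ i ∈ P, x i = x m
      · left
        obtain ⟨P, hP, hP3, hPs⟩ := hex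
        refine ⟨by omega, ⟨insert m P, ?_, oneRel_insert hc h0 hI P hP hP3 hPs⟩, ?_, ?_⟩
        · rw [card_insert_of_notMem, hP3]
          intro hmP
          have := mem_range.1 (hP hmP)
          omega
        · have h2 := first_dep (l := l) hc h0 hx hm hI
          rw [sum_range_succ]
          omega
        · rw [hU]
          have e : m + 1 - 2 = m - 1 := by omega
          rw [e]
          exact hUc
      · right
        left
        rcases Nat.lt_or_ge m 4 with h4 | h4
        · exfalso
          have : m = 3 := by omega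
          subst this
          apply hex
          refine ⟨range 3, subset_rfl, by simp, ?_⟩
          have hmem' := hmem
          simp [U, h0] at hmem'
          simp only [sum_range_succ, sum_range_zero, h0]
          have a0 : x 3 ≠ 0 := fun h => by
            have := hx 3 hm 0 (by omega) (h.trans h0.symm)
            omega
          have a1 : x 3 ≠ x 1 := fun h => by
            have := hx 3 hm 1 (by omega) h
            omega
          have a2 : x 3 ≠ x 2 := fun h => by
            have := hx 3 hm 2 (by omega) h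
            omega
          rw [zero_add, zero_add]
          tauto
        · have h5 := gain (l := l) hx hm ∅ (fun p hp hpD => by
            obtain ⟨P, _, hP, hP3, hPs⟩ := triple hc hx hm p hp hpD
            exact absurd ⟨P, hP, hP3, hPs⟩ hex)
          rw [card_empty] at h5
          refine ⟨by omega, exists_oneRel hc h0 hI, ?_, ?_⟩
          · rw [sum_range_succ]
            omega
          · rw [hU]
            have e : m + 1 - 2 = m - 1 := by omega
            rw [e]
            exact hUc
    · right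
      right
      have hm5 : 5 ≤ m := by
        by_contra hlt
        have : m = 4 := by omega
        subst this
        have h1 := card_le_U (x := x) (n := 5) (fun i hi j hj => hx i (by omega) j (by omega))
        rw [show (5 : ℕ) = 4 + 1 from rfl, hU] at h1
        norm_num at hUc
        omega
      have h2 := second_dep (l := l) hc hx hm R hR4 hR
      obtain ⟨k, rfl⟩ : ∃ k, m = k + 5 := ⟨m - 5, by omega⟩
      have n1 := numG l k hl
      rw [sum_range_succ _ (k + 5)] at n1
      refine ⟨k + 3, ?_, by omega, by omega⟩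
      rw [hU]
      exact hUc
    · right
      right
      have h2 := second_dep' (l := l) hc hx hm R hR
      obtain ⟨k, rfl⟩ : ∃ k, m = k + 5 := ⟨m - 5, by omega⟩
      have n1 := numG l k hl
      rw [sum_range_succ _ (k + 5)] at n1
      refine ⟨k + 3, ?_, by omega, by omega⟩
      rw [hU]
      exact hUc
    · right
      right
      refine ⟨d, ?_, hT.trans hmono, by omega⟩
      rw [hU]
      exact hUc
  · have hj := jump (l := l) hc hx hm hmem
    have hU := card_U_succ x m
    have hUm : ∀ k, m = k + 2 → (U x m).card ≤ 2 ^ (m - 2) →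
        (U x (m + 1)).card ≤ 2 ^ (m + 1 - 2) := by
      intro k hk hUc
      subst hk
      have e1 : k + 2 - 2 = k := by omega
      have e2 : k + 2 + 1 - 2 = k + 1 := by omega
      rw [e1] at hUc
      rw [e2, pow_succ]
      omega
    rcases hst with ⟨hI, hD, hUc⟩ | ⟨hm4, ⟨R, hR4, hR⟩, hD, hUc⟩ |
      ⟨hm5, ⟨R, hR⟩, hD, hUc⟩ | ⟨d, hUc, hT, hT'⟩
    · left
      refine ⟨?_, ?_, ?_⟩
      · intro I hIs hsum
        have hmI := not_mem_of_jump hc hmem I (fun i hi => (mem_Ico.1 (hIs hi)).2) hsum
        refine hI I ?_ hsum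
        intro i hi
        have h1 := mem_Ico.1 (hIs hi)
        have h2 : i ≠ m := fun h => hmI (h ▸ hi)
        rw [mem_Ico]
        omega
      · rw [sum_range_succ]
        omega
      · obtain ⟨k, rfl⟩ : ∃ k, m = k + 1 := ⟨m - 1, by omega⟩
        rw [Nat.add_sub_cancel] at hUc ⊢
        rw [pow_succ]
        omega
    · right
      left
      refine ⟨by omega, ⟨R, hR4, oneRel_jump R hR (not_mem_of_jump hc hmem)⟩, ?_,
        hUm (m - 2) (by omega) hUc⟩
      rw [sum_range_succ]
      omega
    · right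
      right
      left
      refine ⟨by omega, ⟨R, oneRel_jump R hR (not_mem_of_jump hc hmem)⟩, ?_,
        hUm (m - 2) (by omega) hUc⟩
      rw [sum_range_succ]
      omega
    · right
      right
      right
      refine ⟨d + 1, ?_, ?_, by omega⟩
      · rw [pow_succ]
        omega
      · rw [G_succ]
        have h4 : min l (h d) ≤ min l m := min_le_min_left _ ((h_le d).trans hT')
        omega

lemma statesG (hc : ∀ w : W, w + w = 0) {x : ℕ → W} {n l : ℕ} (hl : 6 ≤ l) (h0 : x 0 = 0)
    (hx : ∀ i < n, ∀ j < n, x i = x j → i = j) (m : ℕ) (hm1 : 1 ≤ m) (hm : m ≤ n) :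
    StA x l m ∨ StC x l m ∨ StE x l m ∨ StF x l m := by
  induction m, hm1 using Nat.le_induction with
  | base =>
    left
    refine ⟨?_, ?_, ?_⟩
    · intro I hI _
      rw [Ico_self, subset_empty] at hI
      exact hI
    · simp
    · simp [U, h0]
  | succ m hm1 ih => exact stepG hc hl h0 hx hm1 (by omega) (ih (by omega))

theorem lowerG (hc : ∀ w : W, w + w = 0) {x : ℕ → W} {n l : ℕ} (h0 : x 0 = 0)
    (hx : ∀ i < n, ∀ j < n, x i = x j → i = j) :
    G l (Nat.clog 2 n) ≤ (D x l n).card := by
  rcases Nat.eq_zero_or_pos n with rfl | hn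
  · simp [G]
  rcases Nat.lt_or_ge l 6 with hlt | hl
  · exact (G_le_T l _).trans (lower hc h0 (by omega) hx)
  rcases statesG hc hl h0 hx n hn (le_refl n) with ⟨hI, hD, hUc⟩ | ⟨hm4, _, hD, _⟩ |
    ⟨hm5, _, hD, _⟩ | ⟨d, hUc, hT, hT'⟩
  · exact ((G_le_T l _).trans (num2 l n)).trans hD
  · have := numG' l n hl hm4
    omega
  · exact ((G_le_T l _).trans (num2 l n)).trans hD
  · refine le_trans (G_mono l ?_) hT
    exact Nat.clog_le_of_le_pow ((card_le_U hx).trans hUc)

end seq

open SimpleGraph

/-- the `l`-th power of the path with the vertices `0, ..., n - 1` -/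
def pathPower (n l : ℕ) : SimpleGraph (Fin n) where
  Adj i j := i ≠ j ∧ (i : ℕ) ≤ j + l ∧ (j : ℕ) ≤ i + l
  symm := ⟨fun _ _ h => ⟨h.1.symm, h.2.2, h.2.1⟩⟩
  loopless := ⟨fun _ h => h.1 rfl⟩

open Classical in
/-- every colour occurs an even number of times along the walk -/
def IsParityWalk {V C : Type*} {G : SimpleGraph V} (c : Sym2 V → C) {u v : V} (w : G.Walk u v) :
    Prop := ∀ a : C, Even ((w.edges.map c).count a)

/-- `c` (restricted to the edges) is a strong parity edge-colouring: the two ends of every parity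
walk are equal -/
def IsSpec {V C : Type*} (G : SimpleGraph V) (c : Sym2 V → C) : Prop :=
  ∀ (u v : V) (w : G.Walk u v), IsParityWalk c w → u = v

section walks

variable {V C : Type*} {G : SimpleGraph V} (c : Sym2 V → C)

open Classical in
/-- the parity vector of a walk -/
noncomputable def par {u v : V} (w : G.Walk u v) : C → ZMod 2 :=
  fun a => (((w.edges.map c).count a : ℕ) : ZMod 2)

lemma par_eq_zero {u v : V} (w : G.Walk u v) : par c w = 0 ↔ IsParityWalk c w := by
  constructor
  · intro h a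
    have := congrFun h a
    simp only [par, Pi.zero_apply] at this
    exact (ZMod.natCast_eq_zero_iff_even).1 this
  · intro h
    funext a
    simp only [par, Pi.zero_apply]
    exact (ZMod.natCast_eq_zero_iff_even).2 (h a)

lemma par_append {u v w : V} (p : G.Walk u v) (q : G.Walk v w) :
    par c (p.append q) = par c p + par c q := by
  funext a
  simp only [par, Walk.edges_append, List.map_append, List.count_append, Pi.add_apply,
    Nat.cast_add]

lemma par_reverse {u v : V} (p : G.Walk u v) : par c p.reverse = par c p := by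
  funext a
  simp only [par, Walk.edges_reverse, List.map_reverse, List.count_reverse]

lemma par_nil (u : V) : par c (Walk.nil : G.Walk u u) = 0 := by
  funext a
  simp [par]

/-- the parity vectors of the closed walks at `r` -/
noncomputable def L (G : SimpleGraph V) (r : V) : AddSubgroup (C → ZMod 2) where
  carrier := {z | ∃ w : G.Walk r r, par c w = z}
  zero_mem' := ⟨Walk.nil, par_nil c r⟩
  add_mem' := by
    rintro a b ⟨w, rfl⟩ ⟨w', rfl⟩
    exact ⟨w.append w', par_append c w w'⟩
  neg_mem' := by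
    rintro a ⟨w, rfl⟩
    refine ⟨w, ?_⟩
    funext a
    exact (ZModModule.neg_eq_self _).symm

end walks

lemma self_add {C : Type*} (z : C → ZMod 2) : z + z = 0 := by
  funext a
  exact CharTwo.add_self_eq_zero _

lemma exists_walk (n l : ℕ) (hl : 1 ≤ l) (h0 : 0 < n) (k : ℕ) (hk : k < n) :
    Nonempty ((pathPower n l).Walk ⟨0, h0⟩ ⟨k, hk⟩) := by
  induction k with
  | zero => exact ⟨Walk.nil⟩
  | succ k ih =>
    obtain ⟨w⟩ := ih (by omega)
    have hadj : (pathPower n l).Adj ⟨k, by omega⟩ ⟨k + 1, hk⟩ := by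
      refine ⟨?_, ?_, ?_⟩
      · intro h
        have := congrArg Fin.val h
        simp at this
      · change k ≤ k + 1 + l
        omega
      · change k + 1 ≤ k + l
        omega
    exact ⟨w.append (Walk.cons hadj Walk.nil)⟩

/-- The number of colours of a strong parity edge-colouring of the path power is at least the
number of differences `y i + y j`, `i < j ≤ i + l`, of an injective sequence `y` with `y 0 = 0` in
a group of exponent two. -/
lemma reduce.{u} (n l : ℕ) (hn : 1 ≤ n) (hl1 : 1 ≤ l) {C : Type u}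
    (c : Sym2 (Fin n) → C) (hc : IsSpec (pathPower n l) c) (t : ℕ)
    (ht : ∀ (W : Type u) [AddCommGroup W] [DecidableEq W] (x : ℕ → W), (∀ w : W, w + w = 0) →
      x 0 = 0 → (∀ i < n, ∀ j < n, x i = x j → i = j) → t ≤ (D x l n).card) :
    t ≤ (c '' (pathPower n l).edgeSet).ncard := by
  classical
  have h0n : 0 < n := hn
  set r : Fin n := ⟨0, h0n⟩ with hr
  have hex : ∀ v : Fin n, Nonempty ((pathPower n l).Walk r v) := fun v =>
    exists_walk n l hl1 h0n v.1 v.2
  let p : ∀ v : Fin n, (pathPower n l).Walk r v := fun v => Classical.choice (hex v)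
  let Λ : AddSubgroup (C → ZMod 2) := L c (pathPower n l) r
  let mk : (C → ZMod 2) → (C → ZMod 2) ⧸ Λ := fun z => (z : (C → ZMod 2) ⧸ Λ)
  have hmk : ∀ a b : C → ZMod 2, mk a = mk b ↔ a + b ∈ Λ := by
    intro a b
    have h1 : mk a = mk b ↔ -a + b ∈ Λ := QuotientAddGroup.eq
    have h2 : -a = a := by
      rw [neg_eq_iff_add_eq_zero]
      exact self_add a
    rw [h1, h2]
  have hadd : ∀ a b : C → ZMod 2, mk a + mk b = mk (a + b) := fun a b => rfl
  have hchar : ∀ w : (C → ZMod 2) ⧸ Λ, w + w = 0 := by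
    intro w
    obtain ⟨z, rfl⟩ := QuotientAddGroup.mk_surjective w
    have h1 := hadd z z
    rw [self_add] at h1
    exact h1
  let y : ℕ → (C → ZMod 2) ⧸ Λ := fun i =>
    if h : i < n then mk (par c (p ⟨i, h⟩)) else 0
  have hy : ∀ i (h : i < n), y i = mk (par c (p ⟨i, h⟩)) := fun i h => dif_pos h
  have hy0 : y 0 = 0 := by
    rw [hy 0 h0n]
    have h1 : mk (par c (p ⟨0, h0n⟩)) = mk 0 := by
      rw [hmk, add_zero]
      exact ⟨p ⟨0, h0n⟩, rfl⟩
    exact h1
  have hinj : ∀ i < n, ∀ j < n, y i = y j → i = j := by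
    intro i hi j hj hij
    rw [hy i hi, hy j hj, hmk] at hij
    obtain ⟨w, hw⟩ := hij
    have h1 := hc ⟨i, hi⟩ ⟨j, hj⟩ ((p ⟨i, hi⟩).reverse.append (w.append (p ⟨j, hj⟩))) (by
      rw [← par_eq_zero, par_append, par_reverse, par_append, hw]
      have : par c (p ⟨i, hi⟩) + (par c (p ⟨i, hi⟩) + par c (p ⟨j, hj⟩) + par c (p ⟨j, hj⟩)) =
        (par c (p ⟨i, hi⟩) + par c (p ⟨i, hi⟩)) + (par c (p ⟨j, hj⟩) + par c (p ⟨j, hj⟩)) := by
        abel
      rw [this, self_add, self_add, add_zero])
    exact congrArg Fin.val h1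
  have hmain := ht _ y hchar hy0 hinj
  refine hmain.trans ?_
  have hfin : (c '' (pathPower n l).edgeSet).Finite := (Set.toFinite _).image c
  have hsub : ((D y l n : Finset _) : Set ((C → ZMod 2) ⧸ Λ)) ⊆
      (fun a : C => mk (Pi.single a 1)) '' (c '' (pathPower n l).edgeSet) := by
    intro w hw
    rw [mem_coe, mem_D] at hw
    obtain ⟨i, j, h1, h2, h3, rfl⟩ := hw
    have hi : i < n := by omega
    have hadj : (pathPower n l).Adj ⟨i, hi⟩ ⟨j, h2⟩ := by
      refine ⟨?_, ?_, h3⟩
      · intro h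
        have := congrArg Fin.val h
        simp at this
        omega
      · change i ≤ j + l
        omega
    refine ⟨c s(⟨i, hi⟩, ⟨j, h2⟩), ⟨s(⟨i, hi⟩, ⟨j, h2⟩), hadj, rfl⟩, ?_⟩
    change mk (Pi.single (c s(⟨i, hi⟩, ⟨j, h2⟩)) 1) = y i + y j
    rw [hy i hi, hy j h2, hadd, hmk]
    refine ⟨(p ⟨i, hi⟩).append ((Walk.cons hadj Walk.nil).append (p ⟨j, h2⟩).reverse), ?_⟩
    rw [par_append, par_append, par_reverse]
    have h5 : par c (Walk.cons hadj (Walk.nil : (pathPower n l).Walk ⟨j, h2⟩ ⟨j, h2⟩)) =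
        Pi.single (c s(⟨i, hi⟩, ⟨j, h2⟩)) 1 := by
      funext a
      simp only [par, Walk.edges_cons, Walk.edges_nil, List.map_cons, List.map_nil]
      by_cases ha : c s(⟨i, hi⟩, ⟨j, h2⟩) = a
      · subst ha
        simp
      · rw [List.count_eq_zero_of_not_mem (by simpa using fun h => ha h.symm)]
        rw [Pi.single_eq_of_ne (fun h => ha h.symm)]
        simp
    rw [h5]
    abel
  have h6 : (D y l n).card = ((D y l n : Finset _) : Set ((C → ZMod 2) ⧸ Λ)).ncard :=
    (Set.ncard_coe_finset _).symm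
  rw [h6]
  exact (Set.ncard_le_ncard hsub (hfin.image _)).trans (Set.ncard_image_le hfin)

/-- Let `n, l ≥ 1`. Every strong parity edge-colouring of the `l`-th power of the path on `n`
vertices uses at least `∑_{k = 0}^{⌈log₂ n⌉ - 1} min (l, h k)` colours, where
`h = 1, 2, 4, 6, 7, 8, 9, ...`; for `l ≤ 6` it uses at least `∑ min (l, 2 ^ k)` colours. -/
theorem result (n l : ℕ) (hn : 1 ≤ n) (hl1 : 1 ≤ l) {C : Type*}
    (c : Sym2 (Fin n) → C) (hc : IsSpec (pathPower n l) c) :
    ∑ k ∈ range (Nat.clog 2 n), min l (if k < 3 then 2 ^ k else k + 3) ≤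
        (c '' (pathPower n l).edgeSet).ncard ∧
      (l ≤ 6 → ∑ k ∈ range (Nat.clog 2 n), min l (2 ^ k) ≤
        (c '' (pathPower n l).edgeSet).ncard) :=
  ⟨reduce n l hn hl1 c hc _ (fun _ _ _ _ h1 h2 h3 => lowerG h1 h2 h3),
    fun hl6 => reduce n l hn hl1 c hc _ (fun _ _ _ _ h1 h2 h3 => lower' h1 h2 hl6 h3)⟩

end Pool.Agent.Results.MP_c1651f_co.SmallPowers
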